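import Pool.Agent.H3.BI.Model

/-!
# Project BD: statements of the parts, first half (process, supermartingales, no thin tentacles)

`S_xxx` is a statement to be proved; `C_xxx` is the conclusion of a part with hypotheses.
-/

set_option autoImplicit false

open scoped ENNReal
open Finset MeasureTheory

namespace Pool.Agent.H3.BI

/-! ## K: the kernel on real vectors -/

/-- Squared norm of a real vector. -/
noncomputable def qr {d : ℕ} (w : Fin d → ℝ) : ℝ := ∑ i, w i ^ 2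

/-- A direction as a real vector. -/
noncomputable def rvec {d : ℕ} (e : Dir d) : Fin d → ℝ := Pi.single e.1 (if e.2 then 1 else -1)

/-- Average over the neighbours of a real vector. -/
noncomputable def PR {d : ℕ} (f : (Fin d → ℝ) → ℝ) (w : Fin d → ℝ) : ℝ :=
  (∑ e : Dir d, f (w + rvec e)) / (2 * d)

/-- **KDI.** Discrete Laplacian of the powers `(|w|^2 + a)^(-γ)`, with constant independent of
`a`. -/
def S_KDI : Prop :=
  ∀ (d : ℕ) (γ : ℝ), 3 ≤ d → 0 < γ → ∃ C : ℝ, 1 ≤ C ∧ ∀ (a : ℝ) (w : Fin d → ℝ),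
    1 ≤ qr w + a → 4 * Real.sqrt (qr w) ≤ qr w + a + 1 → qr w ≤ 2 * (qr w + a) →
    |(qr w + a) ^ (-γ) - PR (fun v => (qr v + a) ^ (-γ)) w -
      (γ * (d - 2 - 2 * γ) / d * (qr w + a) ^ (-γ - 1) +
        2 * γ * (γ + 1) * a / d * (qr w + a) ^ (-γ - 2))| ≤ C * (qr w + a) ^ (-γ - 2)

/-- **LAT.** Lattice sums (over arbitrary finite sets of sites). -/
def S_LAT : Prop :=
  ∀ d : ℕ, 3 ≤ d → ∃ C : ℝ, 1 ≤ C ∧ ∀ (ρ : ℝ) (z : Site d) (Y : Finset (Site d)), 1 ≤ ρ →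
    ((∀ y ∈ Y, nrm (y - z) ≤ ρ) →
      (Y.card : ℝ) ≤ C * ρ ^ d ∧
      ∑ y ∈ Y, (nsq (y - z) + 1) ^ (-bt d) ≤ C * ρ ^ 2 ∧
      ∑ y ∈ Y, (nsq (y - z) + 1) ^ (-((d : ℝ) / 2)) ≤ C * (1 + Real.log ρ)) ∧
    ((∀ y ∈ Y, ρ ≤ nrm (y - z)) →
      ∑ y ∈ Y, (nsq (y - z) + 1) ^ (-((d : ℝ) / 2) - 1) ≤ C / ρ ^ 2)

/-! ## A: the process -/

/-- **BAS.** Elementary properties of the functionals. -/
def S_BAS : Prop :=
  ∀ (d : ℕ) (ν : PMF ℕ), 3 ≤ d →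
    (∀ (D : Set (Site d)) (f g : Finset (Site d) → ℝ≥0∞), (∀ A, f A ≤ g A) →
      ∀ n p, Ph ν D f n p ≤ Ph ν D g n p) ∧
    (∀ (D : Set (Site d)) (f : Finset (Site d) → ℝ≥0∞) n p,
      Ph ν D f n p ≤ Ph ν D f (n + 1) p) ∧
    (∀ (D : Set (Site d)) (f : Finset (Site d) → ℝ≥0∞) n p,
      Ph ν D f n p = ∑' B, f B * Ph ν D (ind fun C => C = B) n p) ∧
    (∀ (D : Set (Site d)) (f : Finset (Site d) → ℝ≥0∞) A,
      KD ν D f A = ∑' B, f B * KD ν D (ind fun C => C = B) A) ∧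
    (∀ (D : Set (Site d)) n p, Ph ν D (fun _ => 1) n p ≤ 1) ∧
    (∀ (D : Set (Site d)) n A L B, ¬ A ⊆ B → Ph ν D (ind fun C => C = B) n (A, L) = 0) ∧
    (∀ (D : ℕ → Set (Site d)) (f : Finset (Site d) → ℝ≥0∞) n,
      Eg ν D n f = ∑' B, f B * Eg ν D n (ind fun C => C = B))

/-- **SYM.** The order of the particles is irrelevant. -/
def S_SYM : Prop :=
  ∀ (d : ℕ) (ν : PMF ℕ) (D : Set (Site d)) (f : Finset (Site d) → ℝ≥0∞) (n : ℕ)
    (A : Finset (Site d)) (L L' : List (Site d)), 3 ≤ d → L.Perm L' →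
    Ph ν D f n (A, L) = Ph ν D f n (A, L')

/-- **TRM.** In a bounded domain every launch ends. -/
def S_TRM : Prop :=
  ∀ (d : ℕ) (ν : PMF ℕ) (R : ℝ) (A : Finset (Site d)), 3 ≤ d → ConditionH ν → 0 ≤ R →
    KD ν (Bl d R) (fun _ => 1) A = 1

/-- **UNI.** The uniformly chosen order gives the same law, and a launch which ends in the domain
does not see the domain. -/
def C_UNI : Prop :=
  ∀ (d : ℕ) [NeZero d] (ν : PMF ℕ) (D : Set (Site d)) (A B : Finset (Site d)), 3 ≤ d →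
    (B : Set (Site d)) ⊆ D → launch ν A B = KD ν D (ind fun C => C = B) A

/-- **Part UNI.** -/
def S_UNI : Prop := S_BAS → S_SYM → C_UNI

/-- **CHN.** The chain of the launches. -/
def C_CHN : Prop :=
  ∀ (d : ℕ) [NeZero d] (ν : PMF ℕ) (Ω : Type) (mΩ : MeasurableSpace Ω) (P : Measure Ω)
    (X : ℕ → Ω → Finset (Site d)) (R : ℕ → ℝ) (n : ℕ) (G : Finset (Site d) → Prop), 3 ≤ d →
    ConditionH ν → IsBIDLA ν P X → (∀ s, 0 ≤ R s) →
    P {ω | G (X (n + 1) ω)} ≤ Eg ν (fun s => Bl d (R s)) n (ind G) +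
      ∑ s ∈ range n, Eg ν (fun s => Bl d (R s)) s (fun A => KD ν (Bl d (R (s + 1)))
        (ind fun B : Finset (Site d) => ¬ (B : Set (Site d)) ⊆ Bl d (R (s + 1))) A)

/-- **Part CHN.** -/
def S_CHN : Prop := S_BAS → S_TRM → C_UNI → C_CHN

/-! ## B: the exponential supermartingales -/

/-- **GFP.** Generating function to the right of `1`. -/
def S_GFP : Prop :=
  ∀ ν : PMF ℕ, ConditionH ν → ∃ C η : ℝ, 1 ≤ C ∧ 0 < η ∧ η ≤ 1 ∧ ∀ s : ℝ, 0 ≤ s → s ≤ η →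
    ∑' k : ℕ, ν k * ENNReal.ofReal ((1 + s) ^ k) ≤ ENNReal.ofReal (1 + s + C * s ^ 2)

/-- **GFM.** Generating function to the left of `1`. -/
def S_GFM : Prop :=
  ∀ ν : PMF ℕ, ConditionH ν → ∃ C : ℝ, 1 ≤ C ∧ ∀ s : ℝ, 0 ≤ s → s ≤ 1 →
    ∑' k : ℕ, ν k * ENNReal.ofReal ((1 - s) ^ k) ≤ ENNReal.ofReal (1 - s + C * s ^ 2)

/-- Hypotheses on the function `b` for the upper tail. -/
structure HU {d : ℕ} (C η : ℝ) (D : Set (Site d)) (a b : Site d → ℝ) : Prop where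
  nbr : ∀ x ∈ D, ∀ e : Dir d,
    0 ≤ b (x + uvec e) ∧ b (x + uvec e) ≤ η ∧ a (x + uvec e) ≤ b (x + uvec e)
  sup : ∀ x ∈ D, PP b x + C * PP (fun y => b y ^ 2) x ≤ b x

/-- **UPP.** The supermartingale for the upper tail. -/
def C_UPP : Prop :=
  ∀ ν : PMF ℕ, ConditionH ν → ∃ C η : ℝ, 1 ≤ C ∧ 0 < η ∧ η ≤ 1 ∧ ∀ d : ℕ, 3 ≤ d →
    ∀ (D : Set (Site d)) (a b : Site d → ℝ), HU C η D a b →
    ∀ (n : ℕ) (A : Finset (Site d)) (L : List (Site d)), (∀ x ∈ L, x ∈ D) →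
      Ph ν D (fun B => ENNReal.ofReal (Real.exp (∑ y ∈ B, a y))) n (A, L) ≤
        ENNReal.ofReal (Real.exp (∑ y ∈ A, a y + (L.map b).sum))

/-- **Part UPP.** -/
def S_UPP : Prop := S_GFP → C_UPP

/-- Hypotheses on the function `b` for the lower tail. -/
structure HL {d : ℕ} (C : ℝ) (D : Set (Site d)) (z : Site d) (a b : Site d → ℝ) : Prop where
  nn : ∀ x, 0 ≤ b x
  le_one : ∀ x, b x ≤ 1
  le : ∀ x, b x ≤ a x
  sub : ∀ x ∈ D, x ≠ z → b x + C * PP (fun y => b y ^ 2) x ≤ PP b x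

/-- **LOW.** The supermartingale for the lower tail. -/
def C_LOW : Prop :=
  ∀ ν : PMF ℕ, ConditionH ν → ∃ C : ℝ, 1 ≤ C ∧ ∀ d : ℕ, 3 ≤ d →
    ∀ (D : Set (Site d)) (z : Site d) (a b : Site d → ℝ), HL C D z a b →
    ∀ (n : ℕ) (A : Finset (Site d)) (L : List (Site d)), (∀ x ∈ L, x ∈ D ∧ x ≠ z) →
      Ph ν D (fun B => ind (fun B : Finset (Site d) => z ∉ B ∧ (B : Set (Site d)) ⊆ D) B *
        ENNReal.ofReal (Real.exp (-∑ y ∈ B, a y))) n (A, L) ≤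
          ENNReal.ofReal (Real.exp (-(∑ y ∈ A, a y + (L.map b).sum)))

/-- **Part LOW.** -/
def S_LOW : Prop := S_GFM → C_LOW

/-- **UPC.** Upper tail for the chain. -/
def C_UPC : Prop :=
  ∀ ν : PMF ℕ, ConditionH ν → ∃ C η : ℝ, 1 ≤ C ∧ 0 < η ∧ η ≤ 1 ∧ ∀ d : ℕ, 3 ≤ d →
    ∀ (R : ℕ → ℝ) (a : Site d → ℝ) (b : ℕ → Site d → ℝ) (β : ℕ → ℝ) (n : ℕ), (∀ s, 0 ≤ R s) →
    (∀ s, 1 ≤ s → s ≤ n + 1 → HU C η (Bl d (R s)) a (b s) ∧ b s 0 ≤ a 0 + β s) →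
    Eg ν (fun s => Bl d (R s)) n (fun A => KD ν (Bl d (R (n + 1)))
        (fun B => ENNReal.ofReal (Real.exp (∑ y ∈ B, a y))) A) ≤
      ENNReal.ofReal (Real.exp ((n + 2) * a 0 + ∑ s ∈ Icc 1 (n + 1), β s))

/-- **Part UPC.** -/
def S_UPC : Prop := C_UPP → C_UPC

/-- **LOC.** Lower tail for the chain. -/
def C_LOC : Prop :=
  ∀ ν : PMF ℕ, ConditionH ν → ∃ C : ℝ, 1 ≤ C ∧ ∀ d : ℕ, 3 ≤ d →
    ∀ (R : ℕ → ℝ) (z : Site d) (a : Site d → ℝ) (b : ℕ → Site d → ℝ) (β : ℕ → ℝ) (n : ℕ),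
    (∀ s, 0 ≤ R s) → z ≠ 0 →
    (∀ s, 1 ≤ s → s ≤ n → HL C (Bl d (R s)) z a (b s) ∧ a 0 - β s ≤ b s 0) →
    Eg ν (fun s => Bl d (R s)) n (fun A => ind (fun A : Finset (Site d) => z ∉ A) A *
        ENNReal.ofReal (Real.exp (-∑ y ∈ A, a y))) ≤
      ENNReal.ofReal (Real.exp (-((n + 1) * a 0) + ∑ s ∈ Icc 1 n, β s))

/-- **Part LOC.** -/
def S_LOC : Prop := C_LOW → C_LOC

/-! ## C: Green potentials -/

/-- `w` is the Green potential of `q` in the ball of radius `R`. -/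
structure GP {d : ℕ} (R : ℝ) (q w : Site d → ℝ) : Prop where
  nn : ∀ x, 0 ≤ w x
  out : ∀ x, R < nrm x → w x = 0
  eq : ∀ x, nrm x ≤ R → w x - PP w x = q x

/-- **POT.** Existence of the Green potential. -/
def S_POT : Prop :=
  ∀ (d : ℕ) (R : ℝ) (q : Site d → ℝ), 3 ≤ d → 0 ≤ R → (∀ x, 0 ≤ q x) → ∃ w, GP R q w

/-- **DUA.** Duality. -/
def S_DUA : Prop :=
  ∀ (d : ℕ) (R : ℝ) (q w h : Site d → ℝ), 3 ≤ d → 0 ≤ R → GP R q w →
    (∀ x, nrm x ≤ R + 1 → 0 ≤ h x) → (∀ x, nrm x ≤ R → PP h x ≤ h x) →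
    (h 0 - PP h 0) * w 0 ≤ ∑ x ∈ bF d R, q x * h x

/-- **MAX.** Comparison. -/
def S_MAX : Prop :=
  ∀ (d : ℕ) (R : ℝ) (q w W : Site d → ℝ), 3 ≤ d → 0 ≤ R → GP R q w →
    (∀ x, nrm x ≤ R + 1 → 0 ≤ W x) → (∀ x, nrm x ≤ R → PP W x + q x ≤ W x) →
    ∀ x, nrm x ≤ R + 1 → w x ≤ W x

/-! ## N: no thin tentacles -/

/-- Energy of a list of particles. -/
noncomputable def en {d : ℕ} (k : Site d → ℝ) (Z : List (Site d)) : ℝ :=
  (Z.map fun p => (Z.map fun q => k (p - q)).sum).sum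

/-- The `ℓ¹` norm. -/
def l1 {d : ℕ} (x : Site d) : ℕ := ∑ i, (x i).natAbs

/-- Distance to the complement of `S`. -/
noncomputable def dv {d : ℕ} (S : Set (Site d)) (x : Site d) : ℕ :=
  sInf {j | ∃ y, y ∉ S ∧ l1 (y - x) = j}

/-- The best credit of a particle of the list. -/
noncomputable def cr {d : ℕ} (g : ℕ → ℝ) (S : Set (Site d)) : List (Site d) → ℝ
  | [] => 0
  | x :: F => max (g (dv S x)) (cr g S F)

/-- State of the run of one family: the aggregate, the active particles of the family, the places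
where the other particles of the family have stopped, and those of them which left `B` and are
still active. -/
structure ES (d : ℕ) where
  A : Finset (Site d)
  F : List (Site d)
  M : List (Site d)
  O : List (Site d)

open Classical in
/-- A particle of the family arrives at `y`. -/
noncomputable def arrE {d : ℕ} (D B : Set (Site d)) (y : Site d) (e : ES d) : ES d :=
  if y ∈ e.A then
    (if y ∈ B then ⟨e.A, y :: e.F, e.M, e.O⟩
      else if y ∈ D then ⟨e.A, e.F, y :: e.M, y :: e.O⟩ else ⟨e.A, e.F, y :: e.M, e.O⟩)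
  else ⟨insert y e.A, e.F, y :: e.M, e.O⟩

/-- `k` particles make a step from `x`. -/
noncomputable def stE {d : ℕ} (D B : Set (Site d)) (x : Site d) :
    ℕ → (ES d → ℝ≥0∞) → ES d → ℝ≥0∞
  | 0, f, e => f e
  | k + 1, f, e => (∑ u : Dir d, stE D B x k f (arrE D B (x + uvec u) e)) / (2 * d)

/-- A (removed) particle of the family at `x` branches. -/
noncomputable def topE {d : ℕ} (ν : PMF ℕ) (D B : Set (Site d)) (x : Site d)
    (f : ES d → ℝ≥0∞) (e : ES d) : ℝ≥0∞ := ∑' k : ℕ, ν k * stE D B x k f e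

/-- The potential of a family. -/
noncomputable def VV {d : ℕ} (k : Site d → ℝ) (μ γ w : ℝ) (g : ℕ → ℝ) (B : Set (Site d))
    (x0 : Site d) (S0 : List (Site d)) (e : ES d) : ℝ :=
  (μ * (en k (S0 ++ e.M ++ e.F) - en k S0) + ((e.M ++ e.F).map fun y => nsq (y - x0)).sum +
    γ * e.F.length - cr g ((e.A : Set (Site d)) ∩ B) e.F) / w ^ 2

/-- Variance of the offspring law. -/
noncomputable def sg2 (ν : PMF ℕ) : ℝ := ∑' k : ℕ, (ν k).toReal * ((k : ℝ) - 1) ^ 2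

/-- Probability that there is a child, divided by the number of directions. -/
noncomputable def pp (d : ℕ) (ν : PMF ℕ) : ℝ := (1 - (ν 0).toReal) / (2 * d)

/-- Properties of the parameters of the potential. -/
structure Par (d : ℕ) (ν : PMF ℕ) (k : Site d → ℝ) (l : ℕ) (μ γ : ℝ) (g : ℕ → ℝ) : Prop where
  mu_pos : 0 < μ
  ga_pos : 0 < γ
  g_nn : ∀ j, 0 ≤ g j
  g_anti : Antitone g
  g_le : ∀ j, 1 ≤ j → g j ≤ γ
  g_far : ∀ j, l < j → g j = 0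
  k_nn : ∀ x, 0 ≤ k x
  k_symm : ∀ x, k (-x) = k x
  k_sup : ∀ x, PP k x ≤ k x
  ca : μ * sg2 ν * PP (PP k) 0 + g 1 + 1 ≤ pp d ν * γ
  cb : ∀ j, 2 ≤ j → j ≤ l → μ * sg2 ν * PP (PP k) 0 + g j + 1 ≤ pp d ν * g (j - 1)
  cc : ∀ Y : Finset (Site d), (∀ y, l1 y ≤ l → y ∈ Y) →
    μ * sg2 ν * PP (PP k) 0 + 1 ≤ 2 * μ * ∑ y ∈ Y, (k y - PP k y)

/-- **PAR.** Existence of the parameters, with a kernel which decays. -/
def C_PAR : Prop :=
  ∀ (d : ℕ) (ν : PMF ℕ), 3 ≤ d → ConditionH ν → ∃ (k : Site d → ℝ) (l : ℕ) (μ γ : ℝ)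
    (g : ℕ → ℝ) (C : ℝ), Par d ν k l μ γ g ∧ 1 ≤ C ∧ ∀ x, k x ≤ C * (nsq x + 1) ^ (-bt d)

/-- **Part PAR.** -/
def S_PAR : Prop := S_KDI → C_PAR

/-- Invariants of the run of a family. -/
structure EI {d : ℕ} (B : Set (Site d)) (w : ℝ) (x0 : Site d) (S0 : List (Site d)) (e : ES d) :
    Prop where
  act : ∀ x ∈ e.F, x ∈ e.A ∧ x ∈ B
  cov : ∀ x ∈ e.A, x ∈ B → x ∈ S0 ∨ x ∈ e.M
  out : e.O.Sublist e.M
  far : ∀ x ∈ e.O, w ≤ nrm (x - x0)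

/-- The reward in dependence on the distance to the next vacancy. -/
noncomputable def rw' (l : ℕ) (γ : ℝ) (g : ℕ → ℝ) (j : ℕ) : ℝ :=
  if j ≤ 1 then γ else if j ≤ l then g (j - 1) else 0

/-- **DRF.** Mean value of the potential after `m` children have made their steps. -/
def S_DRF : Prop :=
  ∀ (d : ℕ) (ν : PMF ℕ) (k : Site d → ℝ) (l : ℕ) (μ γ w : ℝ) (g : ℕ → ℝ)
    (D B : Set (Site d)) (x0 x : Site d) (S0 : List (Site d)) (A : Finset (Site d))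
    (F M O : List (Site d)) (m : ℕ), 3 ≤ d → Par d ν k l μ γ g → 0 < w →
    (∀ y ∈ F, y ∈ A ∧ y ∈ B) → x ∈ A → x ∈ B →
    stE D B x m (fun e => ENNReal.ofReal (VV k μ γ w g B x0 S0 e)) ⟨A, F, M, O⟩ ≤
      ENNReal.ofReal ((μ * (en k (S0 ++ M ++ F) +
          2 * m * ((S0 ++ M ++ F).map fun q => PP k (x - q)).sum + m * k 0 +
          m * (m - 1) * PP (PP k) 0 - en k S0) +
        ((M ++ F).map fun y => nsq (y - x0)).sum + m * (nsq (x - x0) + 1) +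
        γ * (F.length + m) -
        (if m = 0 then 0 else rw' l γ g (dv ((A : Set (Site d)) ∩ B) x) / (2 * d))) / w ^ 2)

/-- **FAM.** The potential of a family is a supermartingale if the best particle branches. -/
def C_FAM : Prop :=
  ∀ (d : ℕ) (ν : PMF ℕ) (k : Site d → ℝ) (l : ℕ) (μ γ w : ℝ) (g : ℕ → ℝ)
    (D B : Set (Site d)) (x0 x : Site d) (S0 : List (Site d)) (A : Finset (Site d))
    (F M O : List (Site d)), 3 ≤ d → ConditionH ν → Par d ν k l μ γ g → 0 < w →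
    EI B w x0 S0 ⟨A, x :: F, M, O⟩ →
    (∀ y ∈ F, dv ((A : Set (Site d)) ∩ B) x ≤ dv ((A : Set (Site d)) ∩ B) y) →
    topE ν D B x (fun e => ENNReal.ofReal (VV k μ γ w g B x0 S0 e)) ⟨A, F, M, O⟩ ≤
      ENNReal.ofReal (VV k μ γ w g B x0 S0 ⟨A, x :: F, M, O⟩)

/-- **Part FAM.** -/
def S_FAM : Prop := S_DRF → C_FAM

/-- Number of the level of a site (the `J` levels have width `w + 2` and surround `z`). -/
noncomputable def lev {d : ℕ} (z : Site d) (w : ℝ) (J : ℕ) (x : Site d) : ℕ :=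
  ⌊(J * (w + 2) - nrm (x - z)) / (w + 2)⌋₊

/-- Weight of a particle. -/
noncomputable def wt {d : ℕ} (z : Site d) (w : ℝ) (J : ℕ) (x : Site d) : ℝ :=
  2 ^ (lev z w J x - 1) / 2 ^ (J - 2)

/-- The event: `z` is occupied but there are less than `c` occupied sites in the ball. -/
def Thin {d : ℕ} (z : Site d) (r c : ℝ) (A : Finset (Site d)) : Prop :=
  z ∈ A ∧ (Set.ncard {y : Site d | y ∈ A ∧ nrm (y - z) ≤ r} : ℝ) ≤ c

/-- The start of a family: the potential is at most `1 / 2`. -/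
def Sml {d : ℕ} (k : Site d → ℝ) (μ γ w c : ℝ) : Prop :=
  ∀ (x0 : Site d) (S0 : List (Site d)), S0.Nodup → (S0.length : ℝ) ≤ c →
    μ * (k 0 + 2 * (S0.map fun y => k (x0 - y)).sum) + γ ≤ w ^ 2 / 2

/-- **LEV.** Induction over the number of branchings. -/
def C_LEV : Prop :=
  ∀ (d : ℕ) (ν : PMF ℕ) (k : Site d → ℝ) (l : ℕ) (μ γ w c : ℝ) (g : ℕ → ℝ)
    (D : Set (Site d)) (z : Site d) (J n : ℕ) (A : Finset (Site d)) (L : List (Site d)), 3 ≤ d →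
    ConditionH ν → Par d ν k l μ γ g → 1 ≤ w → 2 ≤ J → Sml k μ γ w c → z ∉ A →
    (∀ x ∈ L, x ∈ A ∧ x ∈ D) →
    Ph ν D (ind (Thin z (J * (w + 2)) c)) n (A, L) ≤
      ENNReal.ofReal ((L.map (wt z w J)).sum)

/-- **Part LEV.** -/
def S_LEV : Prop := S_BAS → S_SYM → C_FAM → C_LEV

/-- **SML.** -/
def C_SML : Prop :=
  ∀ (d : ℕ) (k : Site d → ℝ) (μ γ C : ℝ), 3 ≤ d → 0 < μ → 0 < γ → 1 ≤ C →
    (∀ x, 0 ≤ k x) → (∀ x, k x ≤ C * (nsq x + 1) ^ (-bt d)) → ∃ C' : ℝ, 1 ≤ C' ∧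
    ∀ w : ℝ, C' ≤ w → Sml k μ γ w (w ^ d / C')

/-- **Part SML.** -/
def S_SML : Prop := S_LAT → C_SML

/-- **NTT.** No thin tentacles. -/
def C_NTT : Prop :=
  ∀ (d : ℕ) (ν : PMF ℕ), 3 ≤ d → ConditionH ν → ∃ C : ℝ, 1 ≤ C ∧
    ∀ (D : Set (Site d)) (z : Site d) (J : ℕ) (w : ℝ) (A : Finset (Site d)), 2 ≤ J → C ≤ w →
      z ∉ A → (0 : Site d) ∈ A → (0 : Site d) ∈ D → J * (w + 2) ≤ nrm z →
      KD ν D (ind (Thin z (J * (w + 2)) (w ^ d / C))) A ≤ ENNReal.ofReal (4 / 2 ^ J)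

/-- **Part NTT.** -/
def S_NTT : Prop := C_PAR → C_SML → C_LEV → C_NTT

end Pool.Agent.H3.BI
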