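import Pool.Agent.H3.BI.Stm1

/-!
# Project BD: statements of the parts, second half (kernels, mean values, assembly)

Throughout `β = bt d = (d-2)/2`, so that `β + 1 = d/2`.
-/

set_option autoImplicit false

open scoped ENNReal
open Finset MeasureTheory

namespace Pool.Agent.H3.BI

/-! ## K: kernels -/

/-- The kernel `(|x|² + a)^(-β)` on the lattice. -/
noncomputable def kk (d : ℕ) (a : ℝ) (x : Site d) : ℝ := (nsq x + a) ^ (-bt d)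

/-- The mass function: `2/(d-2)` times minus the discrete Laplacian of the kernel. -/
noncomputable def mm (d : ℕ) (a : ℝ) (x : Site d) : ℝ :=
  2 / ((d : ℝ) - 2) * (kk d a x - PP (kk d a) x)

/-- **SPR.** The kernel is superharmonic (also around real points); elementary properties of the
mass function. -/
def C_SPR : Prop :=
  ∀ d : ℕ, 3 ≤ d → ∃ a₀ : ℝ, 3 ≤ a₀ ∧
    (∀ (a : ℝ) (w : Fin d → ℝ), a₀ ≤ a →
      PR (fun v => (qr v + a) ^ (-bt d)) w ≤ (qr w + a) ^ (-bt d)) ∧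
    ∀ a : ℝ, a₀ ≤ a → ∃ C : ℝ, 1 ≤ C ∧ 0 < mm d a 0 ∧ ∀ x : Site d, 0 ≤ mm d a x ∧
      mm d a (-x) = mm d a x ∧ mm d a x ≤ C * (nsq x + 1) ^ (-((d : ℝ) / 2) - 1)

/-- **Part SPR.** -/
def S_SPR : Prop := S_KDI → C_SPR

/-- **KER.** A kernel which is subharmonic except at the origin. -/
def C_KER : Prop :=
  ∀ d : ℕ, 3 ≤ d → ∃ (C : ℝ) (k : Site d → ℝ), 1 ≤ C ∧ (∀ x, 0 ≤ k x) ∧ (∀ x, k x ≤ C) ∧
    (∀ x, x ≠ 0 → k x ≤ PP k x) ∧ (∀ x, x ≠ 0 → nsq x ^ (-bt d) ≤ k x) ∧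
    ∀ x, x ≠ 0 → k x ≤ nsq x ^ (-bt d) + C * nsq x ^ (-bt d - 1)

/-- **Part KER.** -/
def S_KER : Prop := S_KDI → C_KER

/-! ## M: mean values -/

/-- **CNT.** Lattice points in balls. -/
def S_CNT : Prop :=
  ∀ d : ℕ, 3 ≤ d → 0 < om d ∧ ∃ C : ℝ, 1 ≤ C ∧ ∀ ρ : ℝ, 1 ≤ ρ →
    |((bF d ρ).card : ℝ) - om d * ρ ^ d| ≤ C * ρ ^ (d - 1)

/-- **MVI.** The discrete Green identity. -/
def C_MVI : Prop :=
  ∀ d : ℕ, 3 ≤ d → ∃ a₀ : ℝ, 3 ≤ a₀ ∧ ∀ a : ℝ, a₀ ≤ a → ∃ C : ℝ, 1 ≤ C ∧ ∀ ρ : ℝ, C ≤ ρ →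
    ∃ psi : Site d → ℝ, (∀ x, 0 ≤ psi x) ∧ (∀ x, ρ < nrm x → psi x = 0) ∧
      (∀ x, nrm x ≤ ρ → ρ / 2 ≤ nrm x → psi x ≤ C * (ρ + 1 - nrm x) ^ 2) ∧
      (∀ x, nrm x ≤ ρ → psi x ≤ C * ρ ^ d * (nsq x + 1) ^ (-bt d)) ∧
      ∀ f : Site d → ℝ, (∀ x, nrm x ≤ ρ + 1 → 0 ≤ f x) →
        |∑ x ∈ bF d ρ, f x - ρ ^ d * ∑ x ∈ bF d ρ, mm d a x * f x +
          ∑ x ∈ bF d ρ, psi x * (f x - PP f x)| ≤
            C * ∑ x ∈ bF d (ρ + 1) \ bF d (ρ - 1), f x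

/-- **Part MVI.** -/
def S_MVI : Prop := C_SPR → C_MVI

/-- **MMT.** Total mass. -/
def C_MMT : Prop :=
  ∀ d : ℕ, 3 ≤ d → ∃ a₀ : ℝ, 3 ≤ a₀ ∧ ∀ a : ℝ, a₀ ≤ a → HasSum (mm d a) (om d)

/-- **Part MMT.** -/
def S_MMT : Prop := C_SPR → C_MVI → S_CNT → S_LAT → C_MMT

/-- **MVO.** The mean with respect to the mass function is almost the value at the origin. -/
def C_MVO : Prop :=
  ∀ d : ℕ, 3 ≤ d → ∃ a₀ : ℝ, 3 ≤ a₀ ∧ ∀ a κ : ℝ, a₀ ≤ a → 0 < κ → κ ≤ 1 → ∃ C : ℝ, 1 ≤ C ∧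
    ∀ (ρ B : ℝ) (f : Site d → ℝ), C ≤ ρ → 0 ≤ B → (∀ x, nrm x ≤ ρ → 0 ≤ f x) →
      (∀ x, nrm x ≤ κ * ρ → |f x + f (-x) - 2 * f 0| ≤ B * nsq x) →
      |ρ ^ d * ∑ x ∈ bF d ρ, mm d a x * f x - om d * ρ ^ d * f 0| ≤
        C * (ρ ^ d * B * (1 + Real.log ρ) + ρ ^ d / ρ ^ 2 * f 0 +
          (∑ x ∈ bF d ρ, f x) / ρ ^ 2)

/-- **Part MVO.** -/
def S_MVO : Prop := C_SPR → C_MMT → S_LAT → C_MVO

/-! ## U: the image functions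

`N` is the radius of the zero sphere, `z` the pole, `|z| < N`. -/

/-- `|z|²/N²` times the squared distance to the image point: it is equal to
`N² - 2 x·z + |x|²|z|²/N²`. -/
noncomputable def Ez {d : ℕ} (N : ℝ) (z x : Site d) : ℝ :=
  nsq (x - z) + (N ^ 2 - nsq x) * (N ^ 2 - nsq z) / N ^ 2

/-- The superharmonic image function. -/
noncomputable def uS (d : ℕ) (a b N : ℝ) (z x : Site d) : ℝ :=
  (nsq (x - z) + a) ^ (-bt d) - (Ez N z x - b) ^ (-bt d)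

/-- The majorant (`al < d - 2`). -/
noncomputable def fS (d : ℕ) (a al N : ℝ) (z x : Site d) : ℝ :=
  (nsq (x - z) + a) ^ (-(al / 2)) - (Ez N z x + a) ^ (-(al / 2))

/-- The geometric situation. -/
structure Geo {d : ℕ} (c₀ C N : ℝ) (z : Site d) : Prop where
  lo : c₀ * N ≤ nrm z
  hi : nrm z + C ≤ N

/-- **GEO.** Geometry of the image point. -/
def S_GEO : Prop :=
  ∀ (d : ℕ) (c₀ : ℝ), 3 ≤ d → 0 < c₀ → c₀ < 1 → ∃ C : ℝ, 1 ≤ C ∧ ∀ (N : ℝ) (z : Site d),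
    Geo c₀ 1 N z →
    ∃ zs : Fin d → ℝ,
      (∀ x : Site d, Ez N z x = nsq z / N ^ 2 * qr (fun i => (x i : ℝ) - zs i)) ∧
      (∀ x : Site d, nrm x ≤ N → (N - nrm z) ^ 2 ≤ C * Ez N z x ∧
        nsq (x - z) ≤ Ez N z x ∧
        Ez N z x - nsq (x - z) ≤ C * (N - nrm z) * (N - nrm x) ∧
        (N - nrm z) * (N - nrm x) ≤ C * (Ez N z x - nsq (x - z))) ∧
      ∀ x : Site d, N ≤ nrm x → (N - nrm z) * (nrm x - N) ≤ C * (nsq (x - z) - Ez N z x)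

/-- **SUH.** `uS` is superharmonic, with a small defect. -/
def C_SUH : Prop :=
  ∀ d : ℕ, 3 ≤ d → ∃ a₀ : ℝ, 3 ≤ a₀ ∧ ∀ a b c₀ : ℝ, a₀ ≤ a → a₀ ≤ b → 0 < c₀ → c₀ < 1 →
    ∃ C : ℝ, 1 ≤ C ∧ ∀ (N : ℝ) (z : Site d), Geo c₀ C N z → ∀ x : Site d, nrm x ≤ N - 1 →
      PP (uS d a b N z) x ≤ uS d a b N z x ∧
      uS d a b N z x - PP (uS d a b N z) x ≤
        C * (nsq (x - z) + 1) ^ (-((d : ℝ) / 2) - 1)

/-- **Part SUH.** -/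
def S_SUH : Prop := S_KDI → S_GEO → C_SUH

/-- **BND.** Two-sided bounds for `uS` and `fS` in terms of the defect `D = Ez - nsq (x - z)`. -/
def C_BND : Prop :=
  ∀ (d : ℕ) (a b al c₀ : ℝ), 3 ≤ d → 1 ≤ a → 0 ≤ b → 0 < al → 0 < c₀ → c₀ < 1 →
    ∃ C : ℝ, 1 ≤ C ∧ ∀ (N : ℝ) (z : Site d), Geo c₀ C N z → ∀ x : Site d,
      nrm x ≤ N → C ≤ Ez N z x - nsq (x - z) →
      (nsq (x - z) + 1) ^ (-bt d) * ((Ez N z x - nsq (x - z)) / Ez N z x) ≤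
        C * uS d a b N z x ∧
      uS d a b N z x ≤
        C * ((nsq (x - z) + 1) ^ (-bt d) * ((Ez N z x - nsq (x - z)) / Ez N z x)) ∧
      (nsq (x - z) + 1) ^ (-(al / 2)) * ((Ez N z x - nsq (x - z)) / Ez N z x) ≤
        C * fS d a al N z x ∧
      fS d a al N z x ≤
        C * ((nsq (x - z) + 1) ^ (-(al / 2)) * ((Ez N z x - nsq (x - z)) / Ez N z x))

/-- **Part BND.** -/
def S_BND : Prop := S_GEO → C_BND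

/-- **SD2.** Second difference at the origin. -/
def C_SD2 : Prop :=
  ∀ (d : ℕ) (a b c₀ : ℝ), 3 ≤ d → 1 ≤ a → 0 ≤ b → 0 < c₀ → c₀ < 1 →
    ∃ C : ℝ, 1 ≤ C ∧ ∀ (N : ℝ) (z : Site d), Geo c₀ C N z → ∀ x : Site d,
      4 * nrm x ≤ nrm z →
      |uS d a b N z x + uS d a b N z (-x) - 2 * uS d a b N z 0| ≤
        C * (N - nrm z) / N ^ (d + 1) * nsq x

/-- **Part SD2.** -/
def S_SD2 : Prop := S_GEO → C_SD2

/-- **FSH.** The majorant is superharmonic with a large defect. -/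
def C_FSH : Prop :=
  ∀ (d : ℕ) (al c₀ : ℝ), 3 ≤ d → 0 < al → al < (d : ℝ) - 2 → 0 < c₀ → c₀ < 1 →
    ∃ a₀ : ℝ, 3 ≤ a₀ ∧ ∀ a : ℝ, a₀ ≤ a → ∃ C : ℝ, 1 ≤ C ∧ ∀ (N : ℝ) (z : Site d),
      Geo c₀ C N z → ∀ x : Site d, nrm x ≤ N - 1 → C ≤ Ez N z x - nsq (x - z) →
      (nsq (x - z) + 1) ^ (-(al / 2) - 1) * ((Ez N z x - nsq (x - z)) / Ez N z x) ≤
        C * (fS d a al N z x - PP (fS d a al N z) x)

/-- **Part FSH.** -/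
def S_FSH : Prop := S_KDI → S_GEO → C_FSH

/-- Properties of the function for the outer bound. -/
structure OutF {d : ℕ} (C ε R m : ℝ) (z : Site d) (u W : Site d → ℝ) : Prop where
  nn : ∀ x, nrm x ≤ R + 1 → 0 ≤ u x
  b1 : ∀ x, nrm x ≤ R + 1 → u x ≤ C * (nsq (x - z) + 1) ^ (-bt d)
  b2 : ∀ x, nrm x ≤ R + 1 →
    u x ≤ C * m * (m + nrm (x - z)) * (nsq (x - z) + 1) ^ (-((d : ℝ) / 2))
  sup : ∀ x, nrm x ≤ R → PP u x ≤ u x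
  wnn : ∀ x, nrm x ≤ R + 1 → 0 ≤ W x
  wle : ∀ x, nrm x ≤ R + 1 → W x ≤ C * R ^ (ta d + ε) * u x
  wsup : ∀ x, nrm x ≤ R → PP W x + PP (fun y => u y ^ 2) x ≤ W x
  zero : u 0 ≤ C * m / R ^ (d - 1)
  near : ∀ x, nrm x ≤ R + 1 → nrm (x - z) ≤ m → 1 / (C * m ^ (d - 2)) ≤ u x
  tot : ∀ ρ h : ℝ, 1 ≤ h → h ≤ m → 3 * h ≤ ρ → C ≤ ρ → ρ + m ≤ R → R ≤ ρ + 8 * m →
    om d * ρ ^ d * u 0 ≤ ∑ x ∈ bF d ρ, u x + C * m * (h + (1 + m / h) * (1 + Real.log R))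

/-- **OUT.** The function for the outer bound (`u = uS` with `N = nrm z + 2 m`, `W` a multiple of
`fS` with `al = d - 2 - ε`). -/
def C_OUT : Prop :=
  ∀ (d : ℕ) (ε : ℝ), 3 ≤ d → 0 < ε → ε < 1 / 2 → ∃ C : ℝ, 1 ≤ C ∧ ∀ (R m : ℝ) (z : Site d),
    C ≤ m → 4 * m ≤ R → R < nrm z → nrm z ≤ R + 1 → ∃ u W : Site d → ℝ, OutF C ε R m z u W

/-- **OM.** The last field. -/
def C_OM : Prop :=
  ∀ d : ℕ, 3 ≤ d → ∃ a₀ : ℝ, 3 ≤ a₀ ∧ ∀ a b : ℝ, a₀ ≤ a → a₀ ≤ b → ∃ C : ℝ, 1 ≤ C ∧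
    ∀ (R m : ℝ) (z : Site d), C ≤ m → 4 * m ≤ R → R < nrm z → nrm z ≤ R + 1 →
    ∀ ρ h : ℝ, 1 ≤ h → h ≤ m → 3 * h ≤ ρ → C ≤ ρ → ρ + m ≤ R → R ≤ ρ + 8 * m →
    om d * ρ ^ d * uS d a b (nrm z + 2 * m) z 0 ≤
      ∑ x ∈ bF d ρ, uS d a b (nrm z + 2 * m) z x +
        C * m * (h + (1 + m / h) * (1 + Real.log R))

/-- **Part OM.** -/
def S_OM : Prop :=
  S_GEO → C_SPR → C_SUH → C_BND → C_SD2 → C_MVI → C_MVO → S_CNT → S_LAT → C_OM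

/-- **Part OUT.** -/
def S_OUT : Prop := S_GEO → C_SUH → C_BND → C_FSH → C_OM → C_OUT

/-- Properties of the function for the inner bound, first regime. -/
structure InF {d : ℕ} (C N : ℝ) (z : Site d) (u : Site d → ℝ) : Prop where
  nn : ∀ x, 0 ≤ u x
  b1 : ∀ x, u x ≤ C * (nsq (x - z) + 1) ^ (-bt d)
  b2 : ∀ x, u x ≤
    C * (N - nrm z) * (N - nrm z + nrm (x - z)) * (nsq (x - z) + 1) ^ (-((d : ℝ) / 2))
  out : ∀ x, N + 1 ≤ nrm x → u x = 0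
  sub : ∀ x, x ≠ z → u x ≤ PP u x
  zero : (N - nrm z) / (C * N ^ (d - 1)) ≤ u 0
  tot : ∑ x ∈ (bF d (N + 1)).erase z, u x ≤
    om d * N ^ d * u 0 + C * (N - nrm z) * (1 + Real.log N)

/-- **INN.** The function for the inner bound: the positive part of
`k (x - z) - (Ez N z x + a)^(-β)`. -/
def C_INN : Prop :=
  ∀ (d : ℕ) (c₀ : ℝ), 3 ≤ d → 0 < c₀ → c₀ < 1 → ∃ C : ℝ, 1 ≤ C ∧ ∀ (N : ℝ) (z : Site d),
    C ≤ N → Geo c₀ C N z → ∃ u : Site d → ℝ, InF C N z u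

/-- **IT.** Total of the superharmonic function. -/
def C_IT : Prop :=
  ∀ d : ℕ, 3 ≤ d → ∃ a₀ : ℝ, 3 ≤ a₀ ∧ ∀ a b c₀ : ℝ, a₀ ≤ a → a₀ ≤ b → 0 < c₀ → c₀ < 1 →
    ∃ C : ℝ, 1 ≤ C ∧ ∀ (N : ℝ) (z : Site d), C ≤ N → Geo c₀ C N z →
      (∀ x : Site d, nrm x ≤ N - 1 → 0 ≤ uS d a b N z x) ∧
      ∑ x ∈ bF d (N - 2), uS d a b N z x ≤
        om d * N ^ d * uS d a b N z 0 + C * (N - nrm z) * (1 + Real.log N)

/-- **Part IT.** -/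
def S_IT : Prop :=
  S_GEO → C_SPR → C_SUH → C_BND → C_SD2 → C_MVI → C_MVO → S_CNT → S_LAT → C_IT

/-- **Part INN.** -/
def S_INN : Prop := S_GEO → C_SPR → C_KER → C_IT → S_LAT → C_INN

/-- **IN2.** The function for the inner bound, second regime: the positive part of
`k (x - z) - (c₁ N)^(2-d)`. -/
def C_IN2 : Prop :=
  ∀ d : ℕ, 3 ≤ d → ∃ c₀ C : ℝ, 0 < c₀ ∧ c₀ < 1 ∧ 1 ≤ C ∧ ∀ (N : ℝ) (z : Site d), C ≤ N →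
    z ≠ 0 → nrm z ≤ c₀ * N → ∃ u : Site d → ℝ, (∀ x, 0 ≤ u x) ∧
      (∀ x, u x ≤ C * (nsq (x - z) + 1) ^ (-bt d)) ∧ (∀ x, N ≤ nrm x → u x = 0) ∧
      (∀ x, x ≠ z → u x ≤ PP u x) ∧ (nsq z + 1) ^ (-bt d) ≤ C * u 0 ∧
      ∑ x ∈ (bF d N).erase z, u x ≤ om d * N ^ d * u 0 / 2

/-- **Part IN2.** -/
def S_IN2 : Prop := C_KER → S_CNT → S_LAT → C_IN2

/-! ## Q: quadratic variation -/

/-- **QV1.** The sum of the Green potentials over the launches. -/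
def C_QV1 : Prop :=
  ∀ (d : ℕ) (c₀ K : ℝ), 3 ≤ d → 0 < c₀ → c₀ ≤ 1 → 1 ≤ K → ∃ C : ℝ, 1 ≤ C ∧
    ∀ (n : ℕ) (δ M m : ℝ) (z : Site d) (q : Site d → ℝ) (w : ℕ → Site d → ℝ),
    1 ≤ m → m ≤ M → 0 ≤ δ → c₀ * rad d (n + 1) ≤ nrm z → c₀ * m ≤ nrm z →
    nrm z ≤ rad d (n + 1) + δ + 1 → rad d (n + 1) + δ ≤ nrm z + M →
    (∀ x, 0 ≤ q x) →
    (∀ x, nrm x ≤ rad d (n + 1) + δ → q x ≤ K * (nsq (x - z) + 1) ^ (-(2 * bt d)) ∧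
      q x ≤ K * m ^ 2 * (m + nrm (x - z)) ^ 2 * (nsq (x - z) + 1) ^ (-(d : ℝ))) →
    (∀ s, 1 ≤ s → s ≤ n → GP (rad d (s + 1) + δ) q (w s)) →
    ∑ s ∈ Icc 1 n, w s 0 ≤ C * M ^ 2 * (rad d (n + 1) + δ + 1) ^ ta d *
      (1 + Real.log (rad d (n + 1) + δ + 1))

/-- **Part QV1.** -/
def S_QV1 : Prop := C_SPR → S_DUA → S_CNT → S_LAT → C_QV1

/-- **QV2.** The second regime. -/
def C_QV2 : Prop :=
  ∀ (d : ℕ) (K : ℝ), 3 ≤ d → 1 ≤ K → ∃ C : ℝ, 1 ≤ C ∧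
    ∀ (R : ℝ) (z : Site d) (q w : Site d → ℝ), 1 ≤ R → z ≠ 0 → (∀ x, 0 ≤ q x) →
    (∀ x, nrm x ≤ R → q x ≤ K * (nsq (x - z) + 1) ^ (-(2 * bt d))) → GP R q w →
    w 0 ≤ C * (R + nrm z) ^ ta d * (1 + Real.log (R + nrm z)) * (nsq z + 1) ^ (-bt d)

/-- **Part QV2.** -/
def S_QV2 : Prop := C_SPR → S_DUA → S_LAT → C_QV2

/-! ## Z: assembly -/

/-- The domains. -/
def Dm (d : ℕ) (δ : ℝ) (s : ℕ) : Set (Site d) := Bl d (rad d (s + 1) + δ)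

/-- **SEG.** Monotonicity on the support. -/
def C_SEG : Prop :=
  ∀ (d : ℕ) (ν : PMF ℕ) (R : ℕ → ℝ) (n : ℕ) (f g : Finset (Site d) → ℝ≥0∞), 3 ≤ d →
    (∀ s, 0 ≤ R s) →
    (∀ A : Finset (Site d), (0 : Site d) ∈ A → (A : Set (Site d)) ⊆ Bl d (R n) → f A ≤ g A) →
    Eg ν (fun s => Bl d (R s)) n f ≤ Eg ν (fun s => Bl d (R s)) n g

/-- **Part SEG.** -/
def S_SEG : Prop := S_BAS → C_SEG

/-- **PI.** The inner bound for one site. -/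
def C_PI : Prop :=
  ∀ (d : ℕ) (ν : PMF ℕ), 3 ≤ d → ConditionH ν → ∃ C : ℝ, 1 ≤ C ∧
    ∀ (n : ℕ) (δ h : ℝ) (z : Site d), z ≠ 0 → 0 < h → h ≤ δ →
    C * (1 + Real.log (rad d (n + 1) + δ + 1)) ≤ h → C * h ≤ rad d (n + 1) →
    nrm z ≤ rad d (n + 1) - h →
    Eg ν (Dm d δ) n (ind fun A : Finset (Site d) => z ∉ A) ≤
      ENNReal.ofReal (Real.exp (-(h ^ 4 / (C * δ ^ 2 * (rad d (n + 1) + δ + 1) ^ ta d *
        (1 + Real.log (rad d (n + 1) + δ + 1))))))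

/-- **Part PI.** -/
def S_PI : Prop := S_BAS → C_LOC → S_POT → C_INN → C_IN2 → C_QV1 → C_QV2 → S_CNT → C_PI

/-- **PO.** The outer bound for one site. -/
def C_PO : Prop :=
  ∀ (d : ℕ) (ν : PMF ℕ) (ε K : ℝ), 3 ≤ d → ConditionH ν → 0 < ε → ε < 1 / 2 → 4 ≤ K →
    ∃ C : ℝ, 1 ≤ C ∧ ∀ (n J : ℕ) (m h w : ℝ) (z : Site d), 2 ≤ J → C ≤ w → J * (w + 2) ≤ m → C ≤ h → h ≤ m →
    rad d (n + 2) + 4 * m < nrm z → nrm z ≤ rad d (n + 2) + 4 * m + 1 →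
    C * m * (h + (1 + m / h) * (1 + Real.log (rad d (n + 2) + 4 * m))) * m ^ d ≤
      w ^ d * m ^ 2 →
    Eg ν (Dm d (4 * m)) n (fun A => KD ν (Dm d (4 * m) (n + 1))
        (ind fun B : Finset (Site d) => z ∈ B) A) ≤
      ENNReal.ofReal (4 / 2 ^ J) +
      ENNReal.ofReal (Real.exp (-(w ^ (2 * d) * m ^ 2 /
        (C * m ^ (2 * d) * (rad d (n + 2) + 4 * m) ^ (ta d + ε))))) +
      if K * h ≤ rad d (n + 1) then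
        ∑ y ∈ (bF d (rad d (n + 1) - h)).erase 0,
          Eg ν (Dm d (4 * m)) n (ind fun A : Finset (Site d) => y ∉ A)
      else 0

/-- **SUP0.** Support: the sites are near the domain, the origin is occupied. -/
def S_SUP0 : Prop :=
  ∀ (d : ℕ) (ν : PMF ℕ) (R : ℝ) (A B : Finset (Site d)), 3 ≤ d → 0 ≤ R →
    KD ν (Bl d R) (ind fun C => C = B) A ≠ 0 →
    A ⊆ B ∧ ∀ x ∈ B, x ∈ A ∨ nrm x ≤ R + 1

/-- **Part PO.** -/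
def S_PO : Prop :=
  S_BAS → C_SEG → C_UPC → S_POT → S_MAX → C_OUT → C_QV1 → C_NTT → S_SUP0 → S_CNT → C_PO

/-- **FN1.** Concentration at one time. -/
def C_FN1 : Prop :=
  ∀ (d : ℕ) [NeZero d] (ν : PMF ℕ) (ε : ℝ), 3 ≤ d → ConditionH ν → 0 < ε → ε < 1 / 4 →
    ∃ (c : ℝ) (T : ℕ), 0 < c ∧ ∀ (Ω : Type) (mΩ : MeasurableSpace Ω) (P : Measure Ω)
    (X : ℕ → Ω → Finset (Site d)), IsBIDLA ν P X → ∀ t : ℕ, T ≤ t →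
    P {ω | ¬ ((∀ z : Site d, nrm z ≤ rad d t - rad d t ^ (ta d / 2 + ε) → z ∈ X t ω) ∧
      ∀ z ∈ X t ω, nrm z ≤ rad d t + rad d t ^ (ta d / 2 + ε))} ≤
        ENNReal.ofReal (Real.exp (-(rad d t ^ c)))

/-- **Part FN1.** Parameters: `r = rad d t`, `4 m = r^(ta/2+ε)`, `h = r^(ta/2+3ε/4)`,
`J ≈ r^(ε/(16 d))`, `w ≈ m/(4 J)`, exponent `ε/2` in PO. -/
def S_FN1 : Prop := S_BAS → C_SEG → C_CHN → C_PI → C_PO → S_SUP0 → S_CNT → C_FN1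

/-- **FN2.** The almost sure statement. -/
def C_FN2 : Prop :=
  ∀ (d : ℕ) [NeZero d] (ν : PMF ℕ), 3 ≤ d → ConditionH ν →
    ∀ (Ω : Type) (mΩ : MeasurableSpace Ω) (P : Measure Ω)
    (X : ℕ → Ω → Finset (Site d)), IsBIDLA ν P X →
    ∀ᵐ ω ∂P, ∀ ε : ℝ, 0 < ε → ∀ᶠ t in Filter.atTop,
      innerDev t (X t ω) ≤ rad d t ^ (ta d / 2 + ε) ∧
      outerDev t (X t ω) ≤ rad d t ^ (ta d / 2 + ε)

/-- **Part FN2.** -/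
def S_FN2 : Prop := C_FN1 → S_CNT → C_FN2

/-- **TRU.** On the whole lattice every launch ends. -/
def C_TRU : Prop :=
  ∀ (d : ℕ) [NeZero d] (ν : PMF ℕ) (A : Finset (Site d)), 3 ≤ d → ConditionH ν →
    ∑' B, launch ν A B = 1

/-- **Part TRU.** -/
def S_TRU : Prop := S_BAS → S_TRM → C_UNI → S_SUP0 → C_TRU

/-- **EXI.** The process exists. -/
def C_EXI : Prop :=
  ∀ (d : ℕ) [NeZero d] (ν : PMF ℕ), 3 ≤ d → ConditionH ν →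
    ∃ (Ω : Type) (_ : MeasurableSpace Ω) (P : Measure Ω) (X : ℕ → Ω → Finset (Site d)),
      IsBIDLA ν P X

/-- **Part EXI.** -/
def S_EXI : Prop := C_TRU → C_EXI

/-- **LB3.** The lower bounds in dimension three (from the library modules
`Pool.Graph.R_pool_sql_team_seeded_efc1946e...`, `c_io` and `EveryTime`). -/
def S_LB3 : Prop :=
  ∀ ν : PMF ℕ, ConditionH ν → ∃ c : ℝ, 0 < c ∧
    ∀ (Ω : Type) (mΩ : MeasurableSpace Ω) (P : Measure Ω)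
    (X : ℕ → Ω → Finset (Site 3)), IsBIDLA ν P X →
    (∀ᵐ ω ∂P, (∃ᶠ t in Filter.atTop, c * Real.sqrt (rad 3 t) ≤ outerDev t (X t ω)) ∧
      ∃ᶠ t in Filter.atTop, c * Real.sqrt (rad 3 t) ≤ innerDev t (X t ω)) ∧
    ∀ᶠ t in Filter.atTop,
      ENNReal.ofReal c ≤ P {ω | c * Real.sqrt (rad 3 t) ≤ innerDev t (X t ω)} ∧
      ENNReal.ofReal c ≤ P {ω | c * Real.sqrt (rad 3 t) ≤ outerDev t (X t ω)}

end Pool.Agent.H3.BI
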