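import Pool.Agent.H3.BI.Stm2
import Pool.Agent.H74.BD.BAS
import Pool.Agent.H10.BD.CHN
import Pool.Agent.H39.BD.DRF
import Pool.Agent.H70.BD.Dua
import Pool.Agent.H37.BD.Fam
import Pool.Agent.H57.BD.GFM
import Pool.Agent.H28.BD.Gfp
import Pool.Agent.H42.BD.KDI
import Pool.Agent.H27.BD.LAT
import Pool.Agent.H45.BD.LEV
import Pool.Agent.H39.BD.LOC
import Pool.Agent.H24.BD.LOW
import Pool.Agent.H57.BD.MAX
import Pool.Agent.H39.BD.NTT
import Pool.Agent.H61.BD.PAR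
import Pool.Agent.H10.BD.POT
import Pool.Agent.H27.BD.SML
import Pool.Agent.H42.BD.SYM
import Pool.Agent.H62.BD.TRM
import Pool.Agent.H28.BD.Uni
import Pool.Agent.H74.BD.UPC
import Pool.Agent.H28.BD.Upp

/-!
# Project BD: assembly of the first half
-/

set_option autoImplicit false

namespace Pool.Agent.H3.BI

theorem p_BAS : S_BAS := H74.BD.t_BAS
theorem p_SYM : S_SYM := H42.BD.part_SYM
theorem p_TRM : S_TRM := H62.BD.t_TRM
theorem p_UNI : C_UNI := H28.BD.Uni.t_UNI p_BAS p_SYM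
theorem p_CHN : C_CHN := H10.BD.t_CHN p_BAS p_TRM p_UNI
theorem p_UPP : C_UPP := H28.BD.Upp.t_UPP H28.BD.Gfp.t_GFP
theorem p_LOW : C_LOW := H24.BD.t_LOW H57.BD.t_GFM
theorem p_UPC : C_UPC := H74.BD.t_UPC p_UPP
theorem p_LOC : C_LOC := H39.BD.t_LOC p_LOW
theorem p_POT : S_POT := H10.BD.t_POT
theorem p_DUA : S_DUA := H70.BD.t_DUA
theorem p_MAX : S_MAX := H57.BD.t_MAX
theorem p_KDI : S_KDI := H42.BD.part_KDI
theorem p_LAT : S_LAT := H27.BD.t_LAT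
theorem p_PAR : C_PAR := H61.BD.t_PAR p_KDI
theorem p_FAM : C_FAM := H37.BD.t_FAM H39.BD.t_DRF
theorem p_LEV : C_LEV := H45.BD.t_LEV p_BAS p_SYM p_FAM
theorem p_SML : C_SML := H27.BD.t_SML p_LAT
theorem p_NTT : C_NTT := H39.BD.t_NTT p_PAR p_SML p_LEV

end Pool.Agent.H3.BI
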