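import Pool.Agent.H3.BI.Stm2

/-!
# Project BD: the final statement from the parts
-/

set_option autoImplicit false

open scoped ENNReal Topology
open Finset MeasureTheory Filter

namespace Pool.Agent.H3.BI

theorem om_pos_of (h : S_CNT) (d : ℕ) (hd : 3 ≤ d) : 0 < om d := (h d hd).1

theorem rad_tendsto (d : ℕ) (hd : 3 ≤ d) (hom : 0 < om d) :
    Tendsto (fun t : ℕ => rad d t) atTop atTop := by
  unfold rad
  have hd0 : (0 : ℝ) < (d : ℝ) := by exact_mod_cast (by omega : 0 < d)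
  have h1 : Tendsto (fun t : ℕ => (t : ℝ) / om d) atTop atTop :=
    tendsto_natCast_atTop_atTop.atTop_div_const hom
  exact (tendsto_rpow_atTop (by positivity)).comp h1

/-- Limit superior of the ratio of the logarithms. -/
theorem limsup_half {D r : ℕ → ℝ} (hD : ∀ t, 0 ≤ D t) (hr : Tendsto r atTop atTop)
    (h1 : ∀ ε : ℝ, 0 < ε → ∀ᶠ t : ℕ in atTop, D t ≤ r t ^ ((1 : ℝ) / 2 + ε))
    {c : ℝ} (hc : 0 < c) (h2 : ∃ᶠ t : ℕ in atTop, c * Real.sqrt (r t) ≤ D t) :
    limsup (fun t => Real.log (D t) / Real.log (r t)) atTop = 1 / 2 := by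
  have hup : ∀ ε : ℝ, 0 < ε → ∀ᶠ t : ℕ in atTop,
      Real.log (D t) / Real.log (r t) ≤ 1 / 2 + ε := by
    intro ε hε
    filter_upwards [h1 ε hε, hr.eventually_gt_atTop 1] with t ht1 ht2
    have hl : 0 < Real.log (r t) := Real.log_pos ht2
    rw [div_le_iff₀ hl]
    rcases (hD t).eq_or_lt with h0 | h0
    · rw [← h0, Real.log_zero]
      positivity
    · rw [← Real.log_rpow (by linarith)]
      exact Real.log_le_log h0 ht1
  have hlo : ∀ ε : ℝ, 0 < ε → ∃ᶠ t : ℕ in atTop,
      1 / 2 - ε ≤ Real.log (D t) / Real.log (r t) := by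
    intro ε hε
    have hlog : Tendsto (fun t => Real.log (r t)) atTop atTop :=
      Real.tendsto_log_atTop.comp hr
    refine (h2.and_eventually ((hr.eventually_gt_atTop 1).and
      (hlog.eventually_ge_atTop (-Real.log c / ε)))).mono fun t ht => ?_
    obtain ⟨ht1, ht2, ht3⟩ := ht
    have hl : 0 < Real.log (r t) := Real.log_pos ht2
    rw [le_div_iff₀ hl]
    have hs : 0 < Real.sqrt (r t) := Real.sqrt_pos.2 (by linarith)
    have h3 : Real.log (c * Real.sqrt (r t)) ≤ Real.log (D t) :=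
      Real.log_le_log (mul_pos hc hs) ht1
    rw [Real.log_mul hc.ne' hs.ne', Real.log_sqrt (by linarith)] at h3
    have h4 : -Real.log c ≤ ε * Real.log (r t) := by
      rw [div_le_iff₀ hε] at ht3
      linarith
    linarith
  have hbdd : IsBoundedUnder (· ≤ ·) atTop fun t => Real.log (D t) / Real.log (r t) :=
    isBoundedUnder_of_eventually_le (hup 1 one_pos)
  apply le_antisymm
  · refine le_of_forall_pos_le_add fun ε hε => ?_
    refine limsup_le_of_le ?_ (hup ε hε)
    exact IsCoboundedUnder.of_frequently_ge (hlo 1 one_pos)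
  · refine le_of_forall_pos_sub_le fun ε hε => ?_
    exact le_limsup_of_frequently_le (hlo ε hε) hbdd

theorem tendsto_zero_ratio {D r : ℕ → ℝ} (hD : ∀ t, 0 ≤ D t) (hr : Tendsto r atTop atTop)
    (h1 : ∀ ε : ℝ, 0 < ε → ∀ᶠ t : ℕ in atTop, D t ≤ r t ^ ε) :
    Tendsto (fun t => Real.log (1 + D t) / Real.log (r t)) atTop (𝓝 0) := by
  rw [tendsto_order]
  constructor
  · intro a ha
    filter_upwards [hr.eventually_gt_atTop 1] with t ht
    have hl : 0 < Real.log (r t) := Real.log_pos ht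
    have : 0 ≤ Real.log (1 + D t) := Real.log_nonneg (by linarith [hD t])
    exact ha.trans_le (div_nonneg this hl.le)
  · intro a ha
    have hlog : Tendsto (fun t => Real.log (r t)) atTop atTop :=
      Real.tendsto_log_atTop.comp hr
    filter_upwards [h1 (a / 2) (half_pos ha), hr.eventually_gt_atTop 1,
      hlog.eventually_gt_atTop (2 * Real.log 2 / a)] with t ht1 ht2 ht3
    have hl : 0 < Real.log (r t) := Real.log_pos ht2
    rw [div_lt_iff₀ hl]
    have hone : 1 ≤ r t ^ (a / 2) := Real.one_le_rpow ht2.le (half_pos ha).le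
    have h2 : Real.log (1 + D t) ≤ Real.log (2 * r t ^ (a / 2)) :=
      Real.log_le_log (by linarith [hD t]) (by linarith)
    rw [Real.log_mul (by norm_num) (by positivity), Real.log_rpow (by linarith)] at h2
    have h3 : Real.log 2 < a / 2 * Real.log (r t) := by
      rw [div_lt_iff₀ ha] at ht3
      linarith
    linarith

theorem innerDev_nonneg {d : ℕ} (t : ℕ) (A : Finset (Site d)) : 0 ≤ innerDev t A :=
  Real.sInf_nonneg fun _ h => h.1

theorem outerDev_nonneg {d : ℕ} (t : ℕ) (A : Finset (Site d)) : 0 ≤ outerDev t A :=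
  Real.sInf_nonneg fun _ h => h.1

theorem innerDev_le {d : ℕ} (t : ℕ) (A : Finset (Site d)) (δ : ℝ) (hδ : 0 ≤ δ)
    (h : ∀ z : Site d, nrm z ≤ rad d t - δ → z ∈ A) : innerDev t A ≤ δ :=
  csInf_le ⟨0, fun _ h => h.1⟩ ⟨hδ, fun z hz => h z hz.le⟩

theorem outerDev_le {d : ℕ} (t : ℕ) (A : Finset (Site d)) (δ : ℝ) (hδ : 0 ≤ δ)
    (h : ∀ z ∈ A, nrm z ≤ rad d t + δ) : outerDev t A ≤ δ := by
  refine le_of_forall_pos_le_add fun ε hε => ?_
  exact csInf_le ⟨0, fun _ h => h.1⟩ ⟨by linarith, fun z hz => by linarith [h z hz]⟩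

/-- The final statement. -/
def C_RES : Prop :=
  ∀ (d : ℕ) [NeZero d] (ν : PMF ℕ), 3 ≤ d → ConditionH ν →
    (∃ (Ω : Type) (_ : MeasurableSpace Ω) (P : Measure Ω) (X : ℕ → Ω → Finset (Site d)),
      IsBIDLA ν P X) ∧
    ∀ (Ω : Type) (_ : MeasurableSpace Ω) (P : Measure Ω) (X : ℕ → Ω → Finset (Site d)),
      IsBIDLA ν P X →
      (∀ᵐ ω ∂P, ∀ ε : ℝ, 0 < ε → ∀ᶠ t : ℕ in atTop,
        innerDev t (X t ω) ≤ rad d t ^ ((if d = 3 then 1 / 2 else 0) + ε) ∧
        outerDev t (X t ω) ≤ rad d t ^ ((if d = 3 then 1 / 2 else 0) + ε)) ∧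
      (∀ ε : ℝ, 0 < ε → ∃ c : ℝ, 0 < c ∧ ∀ᶠ t : ℕ in atTop,
        P {ω | rad d t ^ ((if d = 3 then 1 / 2 else 0) + ε) < innerDev t (X t ω) ∨
          rad d t ^ ((if d = 3 then 1 / 2 else 0) + ε) < outerDev t (X t ω)} ≤
            ENNReal.ofReal (Real.exp (-(rad d t ^ c)))) ∧
      (d = 3 →
        (∀ᵐ ω ∂P,
          limsup (fun t : ℕ => Real.log (innerDev t (X t ω)) / Real.log (rad d t)) atTop =
            1 / 2 ∧
          limsup (fun t : ℕ => Real.log (outerDev t (X t ω)) / Real.log (rad d t)) atTop =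
            1 / 2) ∧
        ∃ c : ℝ, 0 < c ∧ ∀ᶠ t : ℕ in atTop,
          ENNReal.ofReal c ≤ P {ω | c * Real.sqrt (rad d t) ≤ innerDev t (X t ω)} ∧
          ENNReal.ofReal c ≤ P {ω | c * Real.sqrt (rad d t) ≤ outerDev t (X t ω)}) ∧
      (4 ≤ d → ∀ᵐ ω ∂P,
        Tendsto (fun t : ℕ => Real.log (1 + innerDev t (X t ω)) / Real.log (rad d t))
          atTop (𝓝 0) ∧
        Tendsto (fun t : ℕ => Real.log (1 + outerDev t (X t ω)) / Real.log (rad d t))
          atTop (𝓝 0))

theorem half_ta (d : ℕ) : ta d / 2 = if d = 3 then 1 / 2 else 0 := by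
  unfold ta
  split_ifs <;> norm_num

theorem res_of (hCNT : S_CNT) (h1 : C_FN1) (h2 : C_FN2) (h3 : S_LB3) (h4 : C_EXI) : C_RES := by
  intro d _ ν hd hν
  have hom := om_pos_of hCNT d hd
  have hr := rad_tendsto d hd hom
  refine ⟨h4 d ν hd hν, fun Ω mΩ P X hX => ?_⟩
  have ha := h2 d ν hd hν Ω mΩ P X hX
  simp only [half_ta] at ha
  refine ⟨ha, ?_, ?_, ?_⟩
  · intro ε hε
    have hε' : 0 < min ε (1 / 8) := lt_min hε (by norm_num)
    obtain ⟨c, T, hc, hT⟩ := h1 d ν (min ε (1 / 8)) hd hν hε'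
      ((min_le_right _ _).trans_lt (by norm_num))
    refine ⟨c, hc, ?_⟩
    filter_upwards [eventually_ge_atTop T, hr.eventually_ge_atTop 1] with t ht hrt
    refine le_trans (measure_mono fun ω hω => ?_) (hT Ω mΩ P X hX t ht)
    rintro ⟨hi, ho⟩
    have hp : 0 ≤ rad d t ^ (ta d / 2 + min ε (1 / 8)) := by positivity
    have e1 := innerDev_le t (X t ω) _ hp hi
    have e2 := outerDev_le t (X t ω) _ hp ho
    have e3 : rad d t ^ (ta d / 2 + min ε (1 / 8)) ≤
        rad d t ^ ((if d = 3 then 1 / 2 else 0) + ε) := by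
      rw [half_ta]
      exact Real.rpow_le_rpow_of_exponent_le hrt (by gcongr; exact min_le_left _ _)
    rcases hω with h | h
    · exact absurd (e1.trans e3) (not_le.2 h)
    · exact absurd (e2.trans e3) (not_le.2 h)
  · intro hd3
    subst hd3
    obtain ⟨c, hc, hlb⟩ := h3 ν hν
    obtain ⟨hio, hpr⟩ := hlb Ω mΩ P X hX
    refine ⟨?_, c, hc, hpr⟩
    filter_upwards [ha, hio] with ω hω hio
    constructor
    · refine limsup_half (fun t => innerDev_nonneg _ _) hr (fun ε hε => ?_) hc hio.2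
      exact (hω ε hε).mono fun t ht => by simpa using ht.1
    · refine limsup_half (fun t => outerDev_nonneg _ _) hr (fun ε hε => ?_) hc hio.1
      exact (hω ε hε).mono fun t ht => by simpa using ht.2
  · intro hd4
    have hne : d ≠ 3 := by omega
    filter_upwards [ha] with ω hω
    constructor
    · refine tendsto_zero_ratio (fun t => innerDev_nonneg _ _) hr (fun ε hε => ?_)
      exact (hω ε hε).mono fun t ht => by simpa [hne] using ht.1
    · refine tendsto_zero_ratio (fun t => outerDev_nonneg _ _) hr (fun ε hε => ?_)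
      exact (hω ε hε).mono fun t ht => by simpa [hne] using ht.2

end Pool.Agent.H3.BI
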