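import Pool.Agent.H3.BI.Asm1
import Pool.Agent.H3.BI.Fin
import Pool.Agent.H68.BD.GEO
import Pool.Agent.H90.BD.KER
import Pool.Agent.H18.BD.SPR
import Pool.Agent.H33.BD.CNT
import Pool.Agent.H74.BD.MVI
import Pool.Agent.H74.BD.MMT
import Pool.Agent.H20.BD.MVO
import Pool.Agent.H37.BD.Suh
import Pool.Agent.H18.BD.BND
import Pool.Agent.H68.BD.SD2
import Pool.Agent.H43.BD.It
import Pool.Agent.H28.BD.Inn
import Pool.Agent.H18.BD.IN2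
import Pool.Agent.H86.BD.QV1
import Pool.Agent.H33.BD.QV2
import Pool.Agent.H98.BD.SEG
import Pool.Agent.H98.BD.SUP0
import Pool.Agent.H98.BD.LB3
import Pool.Agent.H83.BD.TRU
import Pool.Agent.H83.BD.EXI
import Pool.Agent.H83.BD.FN2
import Pool.Agent.H39.BD.FSH

/-!
# Project BD: assembly of the second half
-/

set_option autoImplicit false

namespace Pool.Agent.H3.BI

theorem p_GEO : S_GEO := H68.BD.t_GEO
theorem p_CNT : S_CNT := H33.BD.t_CNT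
theorem p_SUP0 : S_SUP0 := H98.BD.t_SUP0
theorem p_LB3 : S_LB3 := H98.BD.t_LB3
theorem p_SEG : C_SEG := H98.BD.t_SEG p_BAS
theorem p_SPR : C_SPR := H18.BD.t_SPR p_KDI
theorem p_KER : C_KER := H90.BD.t_KER p_KDI
theorem p_MVI : C_MVI := H74.BD.t_MVI p_SPR
theorem p_MMT : C_MMT := H74.BD.t_MMT p_SPR p_MVI p_CNT p_LAT
theorem p_MVO : C_MVO := H20.BD.t_MVO p_SPR p_MMT p_LAT
theorem p_SUH : C_SUH := H37.BD.t_SUH p_KDI p_GEO
theorem p_BND : C_BND := H18.BD.t_BND p_GEO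
theorem p_SD2 : C_SD2 := H68.BD.t_SD2 p_GEO
theorem p_FSH : C_FSH := H39.BD.t_FSH p_KDI p_GEO
theorem p_IT : C_IT := H43.BD.t_IT p_GEO p_SPR p_SUH p_BND p_SD2 p_MVI p_MVO p_CNT p_LAT
theorem p_INN : C_INN := H28.BD.Inn.t_INN p_GEO p_SPR p_KER p_IT p_LAT
theorem p_IN2 : C_IN2 := H18.BD.t_IN2 p_KER p_CNT p_LAT
theorem p_QV1 : C_QV1 := H86.BD.t_QV1 p_SPR p_DUA p_CNT p_LAT
theorem p_QV2 : C_QV2 := H33.BD.QV2.t_QV2 p_SPR p_DUA p_LAT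
theorem p_TRU : C_TRU := H83.BD.TRU.t_TRU p_BAS p_TRM p_UNI p_SUP0
theorem p_EXI : C_EXI := H83.BD.EXI.t_EXI p_TRU

end Pool.Agent.H3.BI
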