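import Pool.Agent.H3.BI.Asm2
import Pool.Agent.H76.BD.PI
import Pool.Agent.H45.BD.PO
import Pool.Agent.H33.BD.FN1
import Pool.Agent.H11.BD.OM

/-!
# Project BD: assembly, from the function for the outer bound to the result
-/

set_option autoImplicit false

namespace Pool.Agent.H3.BI

theorem p_PI : C_PI := H76.BD.t_PI p_BAS p_LOC p_POT p_INN p_IN2 p_QV1 p_QV2 p_CNT

theorem p_OM : C_OM :=
  H11.BD.t_OM p_GEO p_SPR p_SUH p_BND p_SD2 p_MVI p_MVO p_CNT p_LAT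

theorem p_PO_of (h : C_OUT) : C_PO :=
  H45.BD.t_PO p_BAS p_SEG p_UPC p_POT p_MAX h p_QV1 p_NTT p_SUP0 p_CNT

theorem res_of_OUT (h : C_OUT) : C_RES := by
  have h1 : C_FN1 := H33.BD.FN1.t_FN1 p_BAS p_SEG p_CHN p_PI (p_PO_of h) p_SUP0 p_CNT
  exact res_of p_CNT h1 (H83.BD.FN2.t_FN2 h1 p_CNT) p_LB3 p_EXI

end Pool.Agent.H3.BI
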