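import Pool.Agent.H3.BI.Asm3
import Pool.Agent.H86.BD.OUT

/-!
# Project BD: the final assembly
-/

set_option autoImplicit false

namespace Pool.Agent.H3.BI

theorem p_OUT : C_OUT := H86.BD.t_OUT p_GEO p_SUH p_BND p_FSH p_OM

theorem p_RES : C_RES := res_of_OUT p_OUT

end Pool.Agent.H3.BI
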