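import Mathlib

/-!
# Branching internal DLA on `Z^d`: definitions (project BD)
-/

set_option autoImplicit false

open scoped ENNReal
open Finset

namespace Pool.Agent.H3.BI

/-- Sites of the lattice. -/
abbrev Site (d : ℕ) := Fin d → ℤ

/-- Directions. -/
abbrev Dir (d : ℕ) := Fin d × Bool

/-- The unit vector of a direction. -/
def uvec {d : ℕ} (e : Dir d) : Site d := Pi.single e.1 (if e.2 then 1 else -1)

/-- Squared Euclidean norm. -/
noncomputable def nsq {d : ℕ} (x : Site d) : ℝ := ∑ i, (x i : ℝ) ^ 2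

/-- Euclidean norm. -/
noncomputable def nrm {d : ℕ} (x : Site d) : ℝ := Real.sqrt (nsq x)

/-- Average over the `2 d` neighbours. -/
noncomputable def PP {d : ℕ} (f : Site d → ℝ) (x : Site d) : ℝ :=
  (∑ e : Dir d, f (x + uvec e)) / (2 * d)

open Classical in
/-- Lattice points of the closed ball of radius `R`. -/
noncomputable def bF (d : ℕ) (R : ℝ) : Finset (Site d) :=
  (Fintype.piFinset fun _ : Fin d => Finset.Icc (-⌈R⌉) ⌈R⌉).filter fun x => nrm x ≤ R

/-- Closed ball as a set. -/
def Bl (d : ℕ) (R : ℝ) : Set (Site d) := {x | nrm x ≤ R}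

/-- Condition (H) on the offspring law: mean one, positive variance, an exponential moment. -/
structure ConditionH (ν : PMF ℕ) : Prop where
  mean : HasSum (fun k : ℕ => (ν k).toReal * (k : ℝ)) 1
  var : 0 < ∑' k : ℕ, (ν k).toReal * ((k : ℝ) - 1) ^ 2
  expo : ∃ lam : ℝ, 0 < lam ∧ Summable fun k : ℕ => (ν k).toReal * Real.exp (lam * k)

/-- Aggregate and list of the active particles. -/
abbrev Cf (d : ℕ) := Finset (Site d) × List (Site d)

open Classical in
/-- A particle arrives at `y`. If `y` is not in the aggregate, it settles there. Otherwise it is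
active if `y` belongs to the domain `D`, and it is removed if `y` is outside the domain. -/
noncomputable def arr {d : ℕ} (D : Set (Site d)) (y : Site d) (p : Cf d) : Cf d :=
  if y ∈ p.1 then (if y ∈ D then (p.1, y :: p.2) else p) else (insert y p.1, p.2)

/-- Mean value of `f` after `k` particles have made, one after the other, a step from `x`. -/
noncomputable def steps {d : ℕ} (D : Set (Site d)) (x : Site d) :
    ℕ → (Cf d → ℝ≥0∞) → Cf d → ℝ≥0∞
  | 0, f, p => f p
  | k + 1, f, p => (∑ e : Dir d, steps D x k f (arr D (x + uvec e) p)) / (2 * d)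

/-- Mean value of `f` after a (removed) particle at `x` has branched. -/
noncomputable def top {d : ℕ} (ν : PMF ℕ) (D : Set (Site d)) (x : Site d) (f : Cf d → ℝ≥0∞)
    (p : Cf d) : ℝ≥0∞ := ∑' k : ℕ, ν k * steps D x k f p

/-- Mean value of `f` of the final aggregate on the event that at most `n` branchings are needed
until no particle is active; always the first particle of the list branches. -/
noncomputable def Ph {d : ℕ} (ν : PMF ℕ) (D : Set (Site d)) (f : Finset (Site d) → ℝ≥0∞) :
    ℕ → Cf d → ℝ≥0∞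
  | 0, p => if p.2 = [] then f p.1 else 0
  | n + 1, p => match p.2 with
    | [] => f p.1
    | x :: L => top ν D x (Ph ν D f n) (p.1, L)

/-- Mean value of `f` of the aggregate after one launch in the domain `D`. -/
noncomputable def KD {d : ℕ} (ν : PMF ℕ) (D : Set (Site d)) (f : Finset (Site d) → ℝ≥0∞)
    (A : Finset (Site d)) : ℝ≥0∞ := ⨆ n, Ph ν D f n (A, [0])

open Classical in
/-- Indicator. -/
noncomputable def ind {α : Type} (P : α → Prop) (a : α) : ℝ≥0∞ := if P a then 1 else 0

/-- `n` launches in the domains `D 1, …, D n`: the mean value of `f` of the aggregate after `n`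
launches on the event that after each launch `s` (`1 ≤ s ≤ n`) the aggregate is contained in
`D s`. -/
noncomputable def Eg {d : ℕ} (ν : PMF ℕ) (D : ℕ → Set (Site d)) :
    ℕ → (Finset (Site d) → ℝ≥0∞) → ℝ≥0∞
  | 0, f => f {0}
  | n + 1, f => Eg ν D n fun A =>
      KD ν (D (n + 1)) (fun B => ind (fun B : Finset (Site d) => (B : Set (Site d)) ⊆ D (n + 1)) B *
        f B) A

/-- Volume of the unit ball. -/
noncomputable def om (d : ℕ) : ℝ :=
  (MeasureTheory.volume (Metric.ball (0 : EuclideanSpace ℝ (Fin d)) 1)).toReal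

/-- Radius of the ball of volume `t`. -/
noncomputable def rad (d : ℕ) (t : ℕ) : ℝ := ((t : ℝ) / om d) ^ ((1 : ℝ) / d)

/-- The exponent `(d - 2) / 2`. -/
noncomputable def bt (d : ℕ) : ℝ := ((d : ℝ) - 2) / 2

/-- Twice the exponent of the deviations: `1` if `d = 3`, otherwise `0`. -/
noncomputable def ta (d : ℕ) : ℝ := if d = 3 then 1 else 0

@[simp] theorem Ph_nil {d : ℕ} (ν : PMF ℕ) (D : Set (Site d)) (f : Finset (Site d) → ℝ≥0∞)
    (n : ℕ) (A : Finset (Site d)) : Ph ν D f n (A, []) = f A := by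
  cases n <;> simp [Ph]

@[simp] theorem Ph_zero_cons {d : ℕ} (ν : PMF ℕ) (D : Set (Site d))
    (f : Finset (Site d) → ℝ≥0∞) (A : Finset (Site d)) (x : Site d) (L : List (Site d)) :
    Ph ν D f 0 (A, x :: L) = 0 := by
  simp [Ph]

theorem Ph_succ_cons {d : ℕ} (ν : PMF ℕ) (D : Set (Site d)) (f : Finset (Site d) → ℝ≥0∞)
    (n : ℕ) (A : Finset (Site d)) (x : Site d) (L : List (Site d)) :
    Ph ν D f (n + 1) (A, x :: L) = top ν D x (Ph ν D f n) (A, L) := by
  simp [Ph]

theorem nsq_nonneg {d : ℕ} (x : Site d) : 0 ≤ nsq x :=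
  Finset.sum_nonneg fun _ _ => sq_nonneg _

theorem nrm_nonneg {d : ℕ} (x : Site d) : 0 ≤ nrm x := Real.sqrt_nonneg _

theorem nrm_sq {d : ℕ} (x : Site d) : nrm x ^ 2 = nsq x := Real.sq_sqrt (nsq_nonneg x)

theorem mem_bF {d : ℕ} (R : ℝ) (x : Site d) : x ∈ bF d R ↔ nrm x ≤ R := by
  classical
  unfold bF
  rw [Finset.mem_filter, Fintype.mem_piFinset]
  refine ⟨fun h => h.2, fun h => ⟨fun i => ?_, h⟩⟩
  have h1 : |(x i : ℝ)| ≤ nrm x := by
    rw [← Real.sqrt_sq_eq_abs]
    exact Real.sqrt_le_sqrt (Finset.single_le_sum (f := fun i => (x i : ℝ) ^ 2)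
      (fun _ _ => sq_nonneg _) (Finset.mem_univ i))
  have h2 : |(x i : ℝ)| ≤ (⌈R⌉ : ℝ) := h1.trans (h.trans (Int.le_ceil R))
  rw [Finset.mem_Icc]
  rw [abs_le] at h2
  constructor
  · exact_mod_cast h2.1
  · exact_mod_cast h2.2

end Pool.Agent.H3.BI
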