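import Pool.Agent.H3.BI.Defs

/-!
# Branching internal DLA on `Z^d`: the model (in the form of the final statement)
-/

set_option autoImplicit false

open scoped ENNReal
open MeasureTheory Filter

namespace Pool.Agent.H3.BI

/-- An aggregate together with the positions of the moving particles. -/
structure Conf (d : ℕ) where
  /-- the aggregate -/
  agg : Finset (Site d)
  /-- the moving particles -/
  moving : List (Site d)

/-- A particle arrives at `y`: outside the aggregate it stops and `y` joins the aggregate, in the
aggregate it keeps moving. -/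
def arrive {d : ℕ} (s : Conf d) (y : Site d) : Conf d :=
  if y ∈ s.agg then ⟨s.agg, y :: s.moving⟩ else ⟨insert y s.agg, s.moving⟩

/-- `k` particles at `x` make, one after the other, independent steps of simple random walk. -/
noncomputable def stepsP {d : ℕ} [NeZero d] (x : Site d) : ℕ → Conf d → PMF (Conf d)
  | 0, s => PMF.pure s
  | k + 1, s =>
    (PMF.uniformOfFintype (Fin d × Bool)).bind fun e => stepsP x k (arrive s (x + uvec e))

/-- The next exponential clock rings: by symmetry it belongs to a uniformly chosen moving particle,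
which is replaced by a `ν`-distributed number of particles at its site, and these make one step
each. Nothing happens if no particle moves. -/
noncomputable def ring {d : ℕ} [NeZero d] (ν : PMF ℕ) (s : Conf d) : PMF (Conf d) :=
  if h : s.moving = [] then PMF.pure s
  else (PMF.uniformOfFinset (Finset.range s.moving.length)
      ⟨0, Finset.mem_range.2 (List.length_pos_iff.2 h)⟩).bind fun i =>
    ν.bind fun k => stepsP (s.moving.getD i 0) k ⟨s.agg, s.moving.eraseIdx i⟩

/-- The law after `n` rings. -/
noncomputable def rings {d : ℕ} [NeZero d] (ν : PMF ℕ) (s : Conf d) : ℕ → PMF (Conf d)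
  | 0 => PMF.pure s
  | n + 1 => (rings ν s n).bind (ring ν)

/-- The probability that the launch of one particle at the origin turns the aggregate `A` into `B`:
the limit (supremum) over `n` of the probability that after `n` rings no particle moves and the
aggregate is `B`. -/
noncomputable def launch {d : ℕ} [NeZero d] (ν : PMF ℕ) (A B : Finset (Site d)) : ℝ≥0∞ :=
  ⨆ n, rings ν ⟨A, [0]⟩ n ⟨B, []⟩

/-- `X t`, `t ≥ 1`, is branching internal DLA: it starts with `{0}`, and given the past the next
aggregate is obtained by one launch. -/
structure IsBIDLA {d : ℕ} [NeZero d] (ν : PMF ℕ) {Ω : Type} [MeasurableSpace Ω] (P : Measure Ω)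
    (X : ℕ → Ω → Finset (Site d)) : Prop where
  prob : IsProbabilityMeasure P
  meas : ∀ (t : ℕ) (B : Finset (Site d)), MeasurableSet {ω | X t ω = B}
  start : P {ω | X 1 ω = {0}} = 1
  markov : ∀ (t : ℕ) (a : ℕ → Finset (Site d)), 1 ≤ t →
    P {ω | ∀ i, 1 ≤ i → i ≤ t + 1 → X i ω = a i} =
      P {ω | ∀ i, 1 ≤ i → i ≤ t → X i ω = a i} * launch ν (a t) (a (t + 1))

/-- Inner deviation: the infimum of the `δ ≥ 0` such that the ball of radius `rad t - δ` is
contained in `A`. -/
noncomputable def innerDev {d : ℕ} (t : ℕ) (A : Finset (Site d)) : ℝ :=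
  sInf {δ : ℝ | 0 ≤ δ ∧ ∀ z : Site d, nrm z < rad d t - δ → z ∈ A}

/-- Outer deviation: the infimum of the `δ ≥ 0` such that `A` is contained in the ball of radius
`rad t + δ`. -/
noncomputable def outerDev {d : ℕ} (t : ℕ) (A : Finset (Site d)) : ℝ :=
  sInf {δ : ℝ | 0 ≤ δ ∧ ∀ z ∈ A, nrm z < rad d t + δ}

end Pool.Agent.H3.BI
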